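import Pool.Agent.W792.WA.Stm
import Pool.Agent.W918.LL.Opr
import Pool.Agent.W792.LL.Dia
import Pool.Agent.W335.LLCay

/-!
# Ward identity for the averaged resolvent (project WA, part PSI)
-/

set_option autoImplicit false

namespace Pool.Agent.W19.WAPsi

open MeasureTheory Pool.Agent.W792.LL Pool.Agent.W792.WA

noncomputable section

/-! ### bounded strongly measurable vectors -/

/-- bounded strongly measurable vectors -/
structure BM {Ω E : Type} [MeasurableSpace Ω] [NormedAddCommGroup E] (ξ : Ω → E) : Prop where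
  sm : StronglyMeasurable ξ
  bd : ∃ K : ℝ, ∀ v, ‖ξ v‖ ≤ K

section BM

set_option linter.unusedSectionVars false

variable {Ω E F : Type} [MeasurableSpace Ω] [NormedAddCommGroup E] [InnerProductSpace ℂ E]
  [NormedAddCommGroup F] [InnerProductSpace ℂ F]

theorem BM.int {P : Measure Ω} [IsProbabilityMeasure P] {ξ : Ω → E} (h : BM ξ) :
    Integrable ξ P := by
  obtain ⟨K, hK⟩ := h.bd
  exact Integrable.of_bound h.sm.aestronglyMeasurable K (Filter.Eventually.of_forall hK)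

theorem BM.add {ξ η : Ω → E} (h : BM ξ) (g : BM η) : BM (fun v => ξ v + η v) := by
  obtain ⟨K, hK⟩ := h.bd
  obtain ⟨L, hL⟩ := g.bd
  exact ⟨h.sm.add g.sm, K + L, fun v => (norm_add_le _ _).trans (add_le_add (hK v) (hL v))⟩

theorem BM.sub {ξ η : Ω → E} (h : BM ξ) (g : BM η) : BM (fun v => ξ v - η v) := by
  obtain ⟨K, hK⟩ := h.bd
  obtain ⟨L, hL⟩ := g.bd
  exact ⟨h.sm.sub g.sm, K + L, fun v => (norm_sub_le _ _).trans (add_le_add (hK v) (hL v))⟩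

theorem BM.const (c : E) : BM (fun _ : Ω => c) :=
  ⟨stronglyMeasurable_const, ‖c‖, fun _ => le_rfl⟩

theorem BM.clm {ξ : Ω → E} (h : BM ξ) (L : E →L[ℂ] F) : BM (fun v => L (ξ v)) := by
  obtain ⟨K, hK⟩ := h.bd
  refine ⟨L.continuous.comp_stronglyMeasurable h.sm, ‖L‖ * K, fun v => ?_⟩
  exact (L.le_opNorm _).trans (mul_le_mul_of_nonneg_left (hK v) (norm_nonneg _))

theorem BM.inner {ξ η : Ω → E} (h : BM ξ) (g : BM η) : BM (fun v => inner ℂ (ξ v) (η v)) := by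
  obtain ⟨K, hK⟩ := h.bd
  obtain ⟨L, hL⟩ := g.bd
  refine ⟨h.sm.inner g.sm, K * L, fun v => ?_⟩
  exact (norm_inner_le_norm _ _).trans (mul_le_mul (hK v) (hL v) (norm_nonneg _)
    ((norm_nonneg _).trans (hK v)))

theorem BM.re {ξ : Ω → ℂ} (h : BM ξ) : BM (fun v => (ξ v).re) := by
  obtain ⟨K, hK⟩ := h.bd
  exact ⟨Complex.continuous_re.comp_stronglyMeasurable h.sm, K, fun v =>
    (Complex.abs_re_le_norm _).trans (hK v)⟩

theorem BM.nsq {ξ : Ω → E} (h : BM ξ) : BM (fun v => ‖ξ v‖ ^ 2) := by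
  obtain ⟨K, hK⟩ := h.bd
  refine ⟨(h.sm.norm).pow 2, K ^ 2, fun v => ?_⟩
  rw [Real.norm_eq_abs, abs_of_nonneg (by positivity)]
  exact pow_le_pow_left₀ (norm_nonneg _) (hK v) 2

/-- expectation -/
def Ex (P : Measure Ω) (ξ : Ω → E) : E := ∫ v, ξ v ∂P

variable [CompleteSpace E] {P : Measure Ω} [IsProbabilityMeasure P]

theorem cov {ξ η : Ω → E} (hξ : BM ξ) (hη : BM η) :
    ∫ v, inner ℂ (ξ v) (η v) ∂P = inner ℂ (Ex P ξ) (Ex P η) +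
      ∫ v, inner ℂ (ξ v - Ex P ξ) (η v - Ex P η) ∂P := by
  obtain ⟨a, ha⟩ : ∃ a : E, a = ∫ v, ξ v ∂P := ⟨_, rfl⟩
  obtain ⟨b, hb⟩ : ∃ b : E, b = ∫ v, η v ∂P := ⟨_, rfl⟩
  unfold Ex
  rw [← ha, ← hb]
  have e1 : ∀ v, (inner ℂ (ξ v - a) (η v - b) : ℂ) =
      inner ℂ (ξ v) (η v) - inner ℂ a (η v) - (inner ℂ (ξ v) b - inner ℂ a b) := by
    intro v
    rw [inner_sub_left, inner_sub_right, inner_sub_right]
    ring
  have i1 : Integrable (fun v => (inner ℂ (ξ v) (η v) : ℂ)) P := (hξ.inner hη).int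
  have i2 : Integrable (fun v => (inner ℂ a (η v) : ℂ)) P := ((BM.const a).inner hη).int
  have i3 : Integrable (fun v => (inner ℂ (ξ v) b : ℂ)) P := (hξ.inner (BM.const b)).int
  have g2 : ∫ v, (inner ℂ a (η v) : ℂ) ∂P = inner ℂ a b := by
    rw [hb]
    exact integral_inner hη.int a
  have g3 : ∫ v, (inner ℂ (ξ v) b : ℂ) ∂P = inner ℂ a b := by
    have h1 : ∀ v, (inner ℂ (ξ v) b : ℂ) = (starRingEnd ℂ) (inner ℂ b (ξ v)) := fun v =>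
      (inner_conj_symm _ _).symm
    simp only [h1]
    rw [integral_conj, integral_inner hξ.int b, ← ha, inner_conj_symm]
  have i4 : Integrable (fun _ : Ω => (inner ℂ a b : ℂ)) P := integrable_const _
  have g4 : ∫ _v : Ω, (inner ℂ a b : ℂ) ∂P = inner ℂ a b := by simp
  have k1 : ∫ v, ((inner ℂ (ξ v) (η v) : ℂ) - inner ℂ a (η v)) ∂P =
      ∫ v, (inner ℂ (ξ v) (η v) : ℂ) ∂P - ∫ v, (inner ℂ a (η v) : ℂ) ∂P := integral_sub i1 i2
  have k2 : ∫ v, ((inner ℂ (ξ v) b : ℂ) - inner ℂ a b) ∂P =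
      ∫ v, (inner ℂ (ξ v) b : ℂ) ∂P - ∫ _v : Ω, (inner ℂ a b : ℂ) ∂P := integral_sub i3 i4
  have k3 : ∫ v, ((inner ℂ (ξ v) (η v) : ℂ) - inner ℂ a (η v) -
      (inner ℂ (ξ v) b - inner ℂ a b)) ∂P =
      ∫ v, ((inner ℂ (ξ v) (η v) : ℂ) - inner ℂ a (η v)) ∂P -
        ∫ v, ((inner ℂ (ξ v) b : ℂ) - inner ℂ a b) ∂P := integral_sub (i1.sub i2) (i3.sub i4)
  simp only [e1]
  rw [k3, k1, k2, g2, g3, g4]
  ring

omit [CompleteSpace E] in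
theorem inn_self (y : E) : (inner ℂ y y : ℂ) = ((‖y‖ ^ 2 : ℝ) : ℂ) := by
  rw [inner_self_eq_norm_sq_to_K]
  push_cast
  rfl

theorem var {ξ : Ω → E} (hξ : BM ξ) :
    ∫ v, ‖ξ v‖ ^ 2 ∂P = ‖Ex P ξ‖ ^ 2 + ∫ v, ‖ξ v - Ex P ξ‖ ^ 2 ∂P := by
  have h := cov (P := P) hξ hξ
  simp only [inner_self_eq_norm_sq_to_K, Complex.coe_algebraMap] at h
  have e : ∀ f : Ω → ℝ, ∫ v, ((f v : ℝ) : ℂ) ^ 2 ∂P = ((∫ v, f v ^ 2 ∂P : ℝ) : ℂ) := by
    intro f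
    have h1 : ∀ v, ((f v : ℝ) : ℂ) ^ 2 = ((f v ^ 2 : ℝ) : ℂ) := fun v => by push_cast; rfl
    simp only [h1]
    exact integral_complex_ofReal
  have h2 : ((∫ v, ‖ξ v‖ ^ 2 ∂P : ℝ) : ℂ) =
      ((‖Ex P ξ‖ ^ 2 + ∫ v, ‖ξ v - Ex P ξ‖ ^ 2 ∂P : ℝ) : ℂ) := by
    rw [← e]
    push_cast
    rw [← e]
    exact h
  exact_mod_cast h2

end BM

/-- Cauchy-Schwarz for expectations. -/
theorem cs {Ω : Type} [MeasurableSpace Ω] {P : Measure Ω} [IsProbabilityMeasure P]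
    {x : Ω → ℂ} {A B : Ω → ℝ} (hx : BM x) (hA : BM A) (hB : BM B) (A0 : ∀ v, 0 ≤ A v)
    (B0 : ∀ v, 0 ≤ B v) (θ : ℝ) (hθ : 0 ≤ θ) (h : ∀ v, ‖x v‖ ^ 2 ≤ θ * A v * B v) :
    ‖∫ v, x v ∂P‖ ^ 2 ≤ θ * (∫ v, A v ∂P) * (∫ v, B v ∂P) := by
  obtain ⟨K, hK⟩ := hA.bd
  obtain ⟨L, hL⟩ := hB.bd
  have hAi : Integrable A P := Integrable.of_bound hA.sm.aestronglyMeasurable K
    (Filter.Eventually.of_forall hK)
  have hBi : Integrable B P := Integrable.of_bound hB.sm.aestronglyMeasurable L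
    (Filter.Eventually.of_forall hL)
  have hxi : Integrable (fun v => ‖x v‖) P := hx.int.norm
  obtain ⟨X, hX⟩ : ∃ X : ℝ, X = ∫ v, ‖x v‖ ∂P := ⟨_, rfl⟩
  have hX0 : 0 ≤ X := by
    rw [hX]
    exact integral_nonneg fun v => norm_nonneg _
  have hle : ‖∫ v, x v ∂P‖ ≤ X := by
    rw [hX]
    exact norm_integral_le_integral_norm _
  obtain ⟨a, ha⟩ : ∃ a : ℝ, a = ∫ v, A v ∂P := ⟨_, rfl⟩
  obtain ⟨b, hb⟩ : ∃ b : ℝ, b = ∫ v, B v ∂P := ⟨_, rfl⟩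
  have ha0 : 0 ≤ a := by
    rw [ha]
    exact integral_nonneg A0
  have hb0 : 0 ≤ b := by
    rw [hb]
    exact integral_nonneg B0
  rw [← ha, ← hb]
  -- for all positive s, t: 2 s t |x| <= theta t^2 A + s^2 B
  have key : ∀ s t : ℝ, 0 ≤ s → 0 ≤ t → 2 * (s * t) * X ≤ θ * t ^ 2 * a + s ^ 2 * b := by
    intro s t hs ht
    have hp : ∀ v, 2 * (s * t) * ‖x v‖ ≤ θ * t ^ 2 * A v + s ^ 2 * B v := by
      intro v
      have h1 := h v
      have h2 : 0 ≤ θ * t ^ 2 * A v + s ^ 2 * B v := by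
        have := A0 v
        have := B0 v
        positivity
      refine abs_le_of_sq_le_sq' ?_ h2 |>.2
      have h3 : (2 * (s * t) * ‖x v‖) ^ 2 = 4 * (s ^ 2 * t ^ 2) * ‖x v‖ ^ 2 := by ring
      rw [h3]
      have h4 : 4 * (s ^ 2 * t ^ 2) * ‖x v‖ ^ 2 ≤ 4 * (s ^ 2 * t ^ 2) * (θ * A v * B v) :=
        mul_le_mul_of_nonneg_left h1 (by positivity)
      nlinarith [sq_nonneg (θ * t ^ 2 * A v - s ^ 2 * B v)]
    have h5 := integral_mono (μ := P) (hxi.const_mul (2 * (s * t)))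
      ((hAi.const_mul (θ * t ^ 2)).add (hBi.const_mul (s ^ 2))) hp
    simp only [Pi.add_apply] at h5
    rw [integral_const_mul, integral_add (hAi.const_mul _) (hBi.const_mul _),
      integral_const_mul, integral_const_mul, ← hX, ← ha, ← hb] at h5
    exact h5
  have hfin : X ^ 2 ≤ θ * a * b := by
    by_contra hcon
    push Not at hcon
    have hXp : 0 < X := by
      rcases hX0.lt_or_eq with h6 | h6
      · exact h6
      · exfalso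
        rw [← h6] at hcon
        have : 0 ≤ θ * a * b := by positivity
        nlinarith
    rcases hb0.lt_or_eq with h6 | h6
    · -- choose s = X, t = b
      have h7 := key X b hX0 hb0
      have h8 : b * (X ^ 2 - θ * a * b) ≤ 0 := by nlinarith
      nlinarith
    · -- b = 0 : s large
      rw [← h6] at hcon key
      have h7 := key (θ * a + 1) X (by positivity) hX0
      nlinarith [mul_pos hXp hXp, mul_nonneg hθ ha0]
  calc ‖∫ v, x v ∂P‖ ^ 2 ≤ X ^ 2 := pow_le_pow_left₀ (norm_nonneg _) hle 2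
    _ ≤ _ := hfin

/-! ### random vectors in `l2` -/

theorem sm_of_coord {Ω Γ : Type} [MeasurableSpace Ω] [Countable Γ] [DecidableEq Γ]
    {ξ : Ω → l2 Γ} (h : ∀ x, Measurable fun v => (ξ v) x) : StronglyMeasurable ξ := by
  have h1 : ∀ F : Finset Γ, StronglyMeasurable
      (fun v => ∑ x ∈ F, (lp.single 2 x ((ξ v) x) : l2 Γ)) := by
    intro F
    refine Finset.stronglyMeasurable_fun_sum F fun x _ => ?_
    have h2 : (fun v => (lp.single 2 x ((ξ v) x) : l2 Γ)) =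
        fun v => (ξ v) x • (lp.single 2 x (1 : ℂ) : l2 Γ) := by
      funext v
      rw [← lp.single_smul, smul_eq_mul, mul_one]
    rw [h2]
    exact (h x).stronglyMeasurable.smul_const _
  refine stronglyMeasurable_of_tendsto Filter.atTop h1 ?_
  rw [tendsto_pi_nhds]
  intro v
  exact lp.hasSum_single (by norm_num) (ξ v)

theorem coord_inner {Γ : Type} [DecidableEq Γ] (x : Γ) (f : l2 Γ) :
    f x = inner ℂ (lp.single 2 x (1 : ℂ) : l2 Γ) f := by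
  rw [lp.inner_single_left]
  simp

theorem int_coord {Ω Γ : Type} [MeasurableSpace Ω] {P : Measure Ω} [IsProbabilityMeasure P]
    [DecidableEq Γ] {ξ : Ω → l2 Γ} (h : BM ξ) (x : Γ) :
    (Ex P ξ) x = ∫ v, (ξ v) x ∂P := by
  have h1 : inner ℂ (lp.single 2 x (1 : ℂ) : l2 Γ) (Ex P ξ) =
      ∫ v, inner ℂ (lp.single 2 x (1 : ℂ) : l2 Γ) (ξ v) ∂P := (integral_inner h.int _).symm
  rw [coord_inner x, h1]
  simp only [← coord_inner]

section dcs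

variable {d : ℕ}

theorem cay_norm (t : ℝ) : ‖cay t‖ = 1 := Pool.Agent.W335.LLCay.main.1 t

theorem dc_apply (v : (Fin d → ℤ) → ℝ) (u : l2 (Fin d → ℤ)) (x : Fin d → ℤ) :
    (dc v u) x = cay (v x) * u x :=
  (DiaP.main (Fin d → ℤ) (fun x => cay (v x)) (fun x => (cay_norm _).le)).1 u x

theorem dc_inner (v : (Fin d → ℤ) → ℝ) (a b : l2 (Fin d → ℤ)) :
    (inner ℂ (dc v a) (dc v b) : ℂ) = inner ℂ a b := by
  rw [lp.inner_eq_tsum, lp.inner_eq_tsum]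
  refine tsum_congr fun x => ?_
  rw [dc_apply, dc_apply]
  have h : (starRingEnd ℂ) (cay (v x)) * cay (v x) = 1 := by
    rw [← Complex.normSq_eq_conj_mul_self, Complex.normSq_eq_norm_sq, cay_norm]
    norm_num
  simp only [RCLike.inner_apply, map_mul]
  calc cay (v x) * b x * ((starRingEnd ℂ) (cay (v x)) * (starRingEnd ℂ) (a x)) =
      ((starRingEnd ℂ) (cay (v x)) * cay (v x)) * (b x * (starRingEnd ℂ) (a x)) := by ring
    _ = _ := by rw [h, one_mul]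

theorem dc_norm (v : (Fin d → ℤ) → ℝ) (a : l2 (Fin d → ℤ)) : ‖dc v a‖ = ‖a‖ := by
  have h := dc_inner v a a
  rw [inner_self_eq_norm_sq_to_K, inner_self_eq_norm_sq_to_K] at h
  have h2 : ‖dc v a‖ ^ 2 = ‖a‖ ^ 2 := by exact_mod_cast h
  exact (pow_left_inj₀ (norm_nonneg _) (norm_nonneg _) two_ne_zero).1 h2

theorem meas_cay : Measurable cay := Pool.Agent.W335.LLCay.main.2.1.measurable

theorem dc_bm {ξ : ((Fin d → ℤ) → ℝ) → l2 (Fin d → ℤ)} (h : BM ξ)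
    (hm : ∀ x, Measurable fun v => (ξ v) x) : BM (fun v => dc v (ξ v)) := by
  obtain ⟨K, hK⟩ := h.bd
  refine ⟨sm_of_coord fun x => ?_, K, fun v => ?_⟩
  · simp only [dc_apply]
    exact (meas_cay.comp (measurable_pi_apply x)).mul (hm x)
  · rw [dc_norm]
    exact hK v

variable (ν : Measure ℝ) [IsProbabilityMeasure ν]

theorem int_cay (x : Fin d → ℤ) :
    ∫ v, cay (v x) ∂(Pn ν (Fin d → ℤ)) = ∫ t, cay t ∂ν := by
  have h1 : MeasurePreserving (fun v : (Fin d → ℤ) → ℝ => v x) (Pn ν (Fin d → ℤ)) ν :=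
    measurePreserving_eval_infinitePi (fun _ : Fin d → ℤ => ν) x
  have h2 : ∫ t, cay t ∂(Measure.map (fun v : (Fin d → ℤ) → ℝ => v x) (Pn ν (Fin d → ℤ))) =
      ∫ v, cay (v x) ∂(Pn ν (Fin d → ℤ)) :=
    integral_map h1.measurable.aemeasurable meas_cay.aestronglyMeasurable
  rw [h1.map_eq] at h2
  exact h2.symm

theorem int_dc (w : l2 (Fin d → ℤ)) :
    Ex (Pn ν (Fin d → ℤ)) (fun v => dc v w) = (∫ t, cay t ∂ν) • w := by
  have hb : BM (fun v : (Fin d → ℤ) → ℝ => dc v w) := dc_bm (BM.const w) (fun _ =>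
    measurable_const)
  ext x
  rw [int_coord hb x]
  simp only [dc_apply]
  rw [integral_mul_const, int_cay]
  rfl

theorem var_dc (w : l2 (Fin d → ℤ)) :
    ∫ v, ‖dc v w - (∫ t, cay t ∂ν) • w‖ ^ 2 ∂(Pn ν (Fin d → ℤ)) = vr ν * ‖w‖ ^ 2 := by
  have hb : BM (fun v : (Fin d → ℤ) → ℝ => dc v w) := dc_bm (BM.const w) (fun _ =>
    measurable_const)
  have h := var (P := Pn ν (Fin d → ℤ)) hb
  rw [int_dc] at h
  simp only [dc_norm] at h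
  rw [integral_const, probReal_univ, one_smul, norm_smul] at h
  unfold vr
  linarith [mul_pow ‖∫ t, cay t ∂ν‖ ‖w‖ 2]

end dcs

/-! ### the Ward identity -/

section ward

variable {d : ℕ}

theorem opr_sub (a b : C(UnitAddTorus (Fin d), ℂ)) : opr (a - b) = opr a - opr b := by
  have h := Pool.Agent.W918.LL.main
  have e1 : opr (a - b) = opr a + opr ((-1 : ℂ) • b) := by
    rw [← (h d a ((-1 : ℂ) • b)).2.2.2.1]
    congr 1
    ext k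
    have e2 : ((a + (-1 : ℂ) • b : C(UnitAddTorus (Fin d), ℂ)) k) = a k + (-1 : ℂ) * b k := rfl
    have e3 : ((a - b : C(UnitAddTorus (Fin d), ℂ)) k) = a k - b k := rfl
    rw [e2, e3]
    ring
  rw [e1, (h d b b).2.2.2.2.1]
  simp [sub_eq_add_neg]

theorem opr_add (a b : C(UnitAddTorus (Fin d), ℂ)) : opr (a + b) = opr a + opr b :=
  (Pool.Agent.W918.LL.main d a b).2.2.2.1

theorem opr_mul (a b : C(UnitAddTorus (Fin d), ℂ)) : opr (a * b) = opr a * opr b :=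
  (Pool.Agent.W918.LL.main d a b).2.2.1

theorem opr_one : opr (1 : C(UnitAddTorus (Fin d), ℂ)) = 1 :=
  (Pool.Agent.W918.LL.main d 0 0).2.2.2.2.2.1

theorem opr_smul (c : ℂ) (a : C(UnitAddTorus (Fin d), ℂ)) : opr (c • a) = c • opr a :=
  (Pool.Agent.W918.LL.main d a a).2.2.2.2.1 c

theorem opr_le (a : C(UnitAddTorus (Fin d), ℂ)) (u : l2 (Fin d → ℤ)) :
    ‖opr a u‖ ≤ ‖a‖ * ‖u‖ :=
  ((opr a).le_opNorm u).trans (mul_le_mul_of_nonneg_right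
    (Pool.Agent.W918.LL.main d a a).2.1 (norm_nonneg _))

/-- the vector `(1 - m c)⁻¹ u` -/
def psv (m : C(UnitAddTorus (Fin d), ℂ)) (u : l2 (Fin d → ℤ)) (v : (Fin d → ℤ) → ℝ) :
    l2 (Fin d → ℤ) := rsv m v u

/-- the vector `c (1 - m c)⁻¹ u` -/
def chi (m : C(UnitAddTorus (Fin d), ℂ)) (u : l2 (Fin d → ℤ)) (v : (Fin d → ℤ) → ℝ) :
    l2 (Fin d → ℤ) := dc v (rsv m v u)

variable (ν : Measure ℝ) [IsProbabilityMeasure ν]

/-- the centred version of `chi` -/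
def chp (m : C(UnitAddTorus (Fin d), ℂ)) (u : l2 (Fin d → ℤ)) (v : (Fin d → ℤ) → ℝ) :
    l2 (Fin d → ℤ) := chi m u v - Ex (Pn ν (Fin d → ℤ)) (chi m u)

/-- the symbol `1 + m C` -/
def aa (m : C(UnitAddTorus (Fin d), ℂ)) : C(UnitAddTorus (Fin d), ℂ) := 1 + m * csym ν m

variable (hS : S_SYMB) (hC : S_CSYM) (m : C(UnitAddTorus (Fin d), ℂ)) (hm : ‖m‖ < 1)
  (u : l2 (Fin d → ℤ))

include hC hm

theorem psv_meas (x : Fin d → ℤ) : Measurable fun v => (psv m u v) x :=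
  ((hC (Measure.dirac 0) d m hm).2.1 u x).1

theorem psv_bm : BM (psv m u) := by
  refine ⟨sm_of_coord (psv_meas hC m hm u), 1 / (1 - ‖m‖) * ‖u‖, fun v => ?_⟩
  exact ((rsv m v).le_opNorm u).trans (mul_le_mul_of_nonneg_right
    ((hC (Measure.dirac 0) d m hm).1 v).1 (norm_nonneg _))

theorem chi_bm : BM (chi m u) := dc_bm (psv_bm hC m hm u) (psv_meas hC m hm u)

theorem psv_eq (v : (Fin d → ℤ) → ℝ) : psv m u v = u + opr m (chi m u v) := by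
  have h := ((hC (Measure.dirac 0) d m hm).1 v).2.1
  have h2 : ((1 - opr m * dc v) * rsv m v) u = u := by
    rw [h]
    rfl
  have h3 : rsv m v u - opr m (dc v (rsv m v u)) = u := h2
  unfold psv chi
  rw [← sub_eq_iff_eq_add]
  exact h3

theorem ex_chi : Ex (Pn ν (Fin d → ℤ)) (chi m u) = opr (csym ν m) u := by
  ext x
  rw [int_coord (chi_bm hC m hm u) x]
  exact ((hC ν d m hm).2.1 u x).2.2.1

theorem ex_psv : Ex (Pn ν (Fin d → ℤ)) (psv m u) = opr (aa ν m) u := by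
  ext x
  rw [int_coord (psv_bm hC m hm u) x]
  have h := ((hC ν d m hm).2.1 u x).2.2.2
  unfold aa
  rw [opr_add, opr_one]
  exact h

theorem chp_bm : BM (chp ν m u) := (chi_bm hC m hm u).sub (BM.const _)

theorem psv_cent (v : (Fin d → ℤ) → ℝ) :
    psv m u v - Ex (Pn ν (Fin d → ℤ)) (psv m u) = opr m (chp ν m u v) := by
  rw [ex_psv ν hC m hm u, psv_eq hC m hm u]
  unfold chp aa
  rw [ex_chi ν hC m hm u, opr_add, opr_one, opr_mul, map_sub]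
  simp only [add_apply, one_apply_eq_self,
    mul_apply_eq_comp]
  abel

theorem varbound :
    vr ν * ‖opr (aa ν m) u‖ ^ 2 ≤ 4 * ∫ v, ‖chp ν m u v‖ ^ 2 ∂(Pn ν (Fin d → ℤ)) := by
  obtain ⟨w, hw⟩ : ∃ w : l2 (Fin d → ℤ), w = opr (aa ν m) u := ⟨_, rfl⟩
  obtain ⟨ξ, hξ⟩ : ∃ ξ : ((Fin d → ℤ) → ℝ) → l2 (Fin d → ℤ),
      ξ = fun v => dc v (opr m (chp ν m u v)) := ⟨_, rfl⟩
  obtain ⟨κ, hκ⟩ : ∃ κ : ℂ, κ = ∫ t, cay t ∂ν := ⟨_, rfl⟩
  rw [← hw, ← var_dc ν w, ← hκ]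
  have hbm : BM (fun v => opr m (chp ν m u v)) := (chp_bm ν hC m hm u).clm _
  have hξbm : BM ξ := by
    rw [hξ]
    refine dc_bm hbm fun x => ?_
    simp only [← psv_cent ν hC m hm u]
    exact (psv_meas hC m hm u x).sub measurable_const
  have hdw : BM (fun v : (Fin d → ℤ) → ℝ => dc v w) := dc_bm (BM.const w) (fun _ =>
    measurable_const)
  have hchi : ∀ v, chi m u v = dc v w + ξ v := by
    intro v
    rw [hξ]
    simp only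
    rw [← psv_cent ν hC m hm u, ex_psv ν hC m hm u, ← hw, ← map_add]
    unfold chi psv
    congr 1
    abel
  have hex : Ex (Pn ν (Fin d → ℤ)) (chi m u) = κ • w + Ex (Pn ν (Fin d → ℤ)) ξ := by
    have e1 : chi m u = fun v => dc v w + ξ v := funext hchi
    rw [hκ, ← int_dc ν w, e1]
    exact integral_add hdw.int hξbm.int
  have hid : ∀ v, dc v w - κ • w = chp ν m u v - (ξ v - Ex (Pn ν (Fin d → ℤ)) ξ) := by
    intro v
    unfold chp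
    rw [hex, hchi]
    abel
  have hpt : ∀ v, ‖dc v w - κ • w‖ ^ 2 ≤ 2 * ‖chp ν m u v‖ ^ 2 +
      2 * ‖ξ v - Ex (Pn ν (Fin d → ℤ)) ξ‖ ^ 2 := by
    intro v
    rw [hid]
    have h1 := norm_sub_le (chp ν m u v) (ξ v - Ex (Pn ν (Fin d → ℤ)) ξ)
    nlinarith [sq_nonneg (‖chp ν m u v‖ - ‖ξ v - Ex (Pn ν (Fin d → ℤ)) ξ‖),
      norm_nonneg (chp ν m u v), norm_nonneg (ξ v - Ex (Pn ν (Fin d → ℤ)) ξ),
      norm_nonneg (chp ν m u v - (ξ v - Ex (Pn ν (Fin d → ℤ)) ξ))]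
  have b1 : BM (fun v => dc v w - κ • w) := hdw.sub (BM.const _)
  have b2 : BM (chp ν m u) := chp_bm ν hC m hm u
  have b3 : BM (fun v => ξ v - Ex (Pn ν (Fin d → ℤ)) ξ) := hξbm.sub (BM.const _)
  have i1 : Integrable (fun v => ‖dc v w - κ • w‖ ^ 2) (Pn ν (Fin d → ℤ)) := by
    obtain ⟨K, hK⟩ := b1.nsq.bd
    exact Integrable.of_bound b1.nsq.sm.aestronglyMeasurable K (Filter.Eventually.of_forall hK)
  have i2 : Integrable (fun v => ‖chp ν m u v‖ ^ 2) (Pn ν (Fin d → ℤ)) := by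
    obtain ⟨K, hK⟩ := b2.nsq.bd
    exact Integrable.of_bound b2.nsq.sm.aestronglyMeasurable K (Filter.Eventually.of_forall hK)
  have i3 : Integrable (fun v => ‖ξ v - Ex (Pn ν (Fin d → ℤ)) ξ‖ ^ 2) (Pn ν (Fin d → ℤ)) := by
    obtain ⟨K, hK⟩ := b3.nsq.bd
    exact Integrable.of_bound b3.nsq.sm.aestronglyMeasurable K (Filter.Eventually.of_forall hK)
  have i4 : Integrable (fun v => ‖ξ v‖ ^ 2) (Pn ν (Fin d → ℤ)) := by
    obtain ⟨K, hK⟩ := hξbm.nsq.bd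
    exact Integrable.of_bound hξbm.nsq.sm.aestronglyMeasurable K
      (Filter.Eventually.of_forall hK)
  have h1 : ∫ v, ‖dc v w - κ • w‖ ^ 2 ∂(Pn ν (Fin d → ℤ)) ≤
      2 * (∫ v, ‖chp ν m u v‖ ^ 2 ∂(Pn ν (Fin d → ℤ))) +
        2 * ∫ v, ‖ξ v - Ex (Pn ν (Fin d → ℤ)) ξ‖ ^ 2 ∂(Pn ν (Fin d → ℤ)) := by
    rw [← integral_const_mul, ← integral_const_mul, ← integral_add (i2.const_mul 2)
      (i3.const_mul 2)]
    exact integral_mono i1 ((i2.const_mul 2).add (i3.const_mul 2)) hpt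
  have h2 := var (P := Pn ν (Fin d → ℤ)) hξbm
  have h3 : ∫ v, ‖ξ v‖ ^ 2 ∂(Pn ν (Fin d → ℤ)) ≤
      ∫ v, ‖chp ν m u v‖ ^ 2 ∂(Pn ν (Fin d → ℤ)) := by
    refine integral_mono i4 i2 fun v => ?_
    dsimp only
    rw [hξ]
    simp only [dc_norm]
    refine pow_le_pow_left₀ (norm_nonneg _) ((opr_le m _).trans ?_) 2
    calc ‖m‖ * ‖chp ν m u v‖ ≤ 1 * ‖chp ν m u v‖ :=
          mul_le_mul_of_nonneg_right hm.le (norm_nonneg _)
      _ = _ := one_mul _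
  have h4 := sq_nonneg ‖Ex (Pn ν (Fin d → ℤ)) ξ‖
  linarith

omit hC hm in
include hS hC in
theorem wardid (m₁ m₂ : C(UnitAddTorus (Fin d), ℂ)) (h₁ : ‖m₁‖ < 1) (h₂ : ‖m₂‖ < 1)
    (u₁ u₂ : l2 (Fin d → ℤ)) :
    inner ℂ u₁ (opr (star (aa ν m₁) * aa ν m₂ - star (csym ν m₁) * csym ν m₂) u₂) =
      ∫ v, inner ℂ (chp ν m₁ u₁ v) (opr (1 - star m₁ * m₂) (chp ν m₂ u₂ v))
        ∂(Pn ν (Fin d → ℤ)) := by
  have hin := (hS d).1
  have c1 := cov (P := Pn ν (Fin d → ℤ)) (psv_bm hC m₁ h₁ u₁) (psv_bm hC m₂ h₂ u₂)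
  have c2 := cov (P := Pn ν (Fin d → ℤ)) (chi_bm hC m₁ h₁ u₁) (chi_bm hC m₂ h₂ u₂)
  have e0 : ∫ v, inner ℂ (chi m₁ u₁ v) (chi m₂ u₂ v) ∂(Pn ν (Fin d → ℤ)) =
      ∫ v, (inner ℂ (psv m₁ u₁ v) (psv m₂ u₂ v) : ℂ) ∂(Pn ν (Fin d → ℤ)) := by
    congr 1
    funext v
    exact dc_inner v _ _
  rw [c1, c2] at e0
  simp only [psv_cent ν hC m₁ h₁ u₁, psv_cent ν hC m₂ h₂ u₂] at e0
  rw [ex_chi ν hC m₁ h₁ u₁, ex_chi ν hC m₂ h₂ u₂, ex_psv ν hC m₁ h₁ u₁,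
    ex_psv ν hC m₂ h₂ u₂] at e0
  have e1 : ∀ v, (inner ℂ (chp ν m₁ u₁ v) (opr (1 - star m₁ * m₂) (chp ν m₂ u₂ v)) : ℂ) =
      inner ℂ (chp ν m₁ u₁ v) (chp ν m₂ u₂ v) -
        inner ℂ (opr m₁ (chp ν m₁ u₁ v)) (opr m₂ (chp ν m₂ u₂ v)) := by
    intro v
    rw [hin, opr_sub, opr_one, sub_apply, inner_sub_right]
    rfl
  have i1 : Integrable (fun v => (inner ℂ (chp ν m₁ u₁ v) (chp ν m₂ u₂ v) : ℂ))
      (Pn ν (Fin d → ℤ)) := ((chp_bm ν hC m₁ h₁ u₁).inner (chp_bm ν hC m₂ h₂ u₂)).int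
  have i2 : Integrable (fun v => (inner ℂ (opr m₁ (chp ν m₁ u₁ v))
      (opr m₂ (chp ν m₂ u₂ v)) : ℂ)) (Pn ν (Fin d → ℤ)) :=
    (((chp_bm ν hC m₁ h₁ u₁).clm _).inner ((chp_bm ν hC m₂ h₂ u₂).clm _)).int
  simp only [e1]
  rw [integral_sub i1 i2, opr_sub, sub_apply, inner_sub_right, ← hin,
    ← hin]
  have e2 : ∫ v, (inner ℂ (chi m₁ u₁ v - opr (csym ν m₁) u₁)
      (chi m₂ u₂ v - opr (csym ν m₂) u₂) : ℂ) ∂(Pn ν (Fin d → ℤ)) =
      ∫ v, (inner ℂ (chp ν m₁ u₁ v) (chp ν m₂ u₂ v) : ℂ) ∂(Pn ν (Fin d → ℤ)) := by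
    unfold chp
    rw [ex_chi ν hC m₁ h₁ u₁, ex_chi ν hC m₂ h₂ u₂]
  rw [e2] at e0
  linear_combination -e0

omit hC hm in
theorem toC_apply {X : Type} [TopologicalSpace X] {f : X → ℂ} (h : Continuous f) (x : X) :
    toC f x = f x := by
  unfold toC
  rw [dif_pos h]
  rfl

/-- the real symbol `1 - |m|²` -/
def gm (m : C(UnitAddTorus (Fin d), ℂ)) : C(UnitAddTorus (Fin d), ℝ) :=
  ⟨fun k => 1 - ‖m k‖ ^ 2, by fun_prop⟩

/-- the real symbol `|a|² - |C|²` -/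
def gp (m : C(UnitAddTorus (Fin d), ℂ)) : C(UnitAddTorus (Fin d), ℝ) :=
  ⟨fun k => ‖aa ν m k‖ ^ 2 - ‖csym ν m k‖ ^ 2, by fun_prop⟩

omit hC hm in
theorem cR_apply (g : C(UnitAddTorus (Fin d), ℝ)) (k : UnitAddTorus (Fin d)) :
    cR g k = (g k : ℂ) := by
  unfold cR
  exact toC_apply (by fun_prop) k

omit hC hm in
theorem cR_gm : cR (gm m) = 1 - star m * m := by
  ext k
  rw [cR_apply]
  have h1 : ((1 - star m * m : C(UnitAddTorus (Fin d), ℂ)) k) =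
      1 - (starRingEnd ℂ) (m k) * m k := rfl
  rw [h1, Complex.conj_mul']
  unfold gm
  simp

omit hC hm in
theorem cR_gp : cR (gp ν m) = star (aa ν m) * aa ν m - star (csym ν m) * csym ν m := by
  ext k
  rw [cR_apply]
  have h1 : ((star (aa ν m) * aa ν m - star (csym ν m) * csym ν m :
      C(UnitAddTorus (Fin d), ℂ)) k) = (starRingEnd ℂ) (aa ν m k) * aa ν m k -
        (starRingEnd ℂ) (csym ν m k) * csym ν m k := rfl
  rw [h1, Complex.conj_mul', Complex.conj_mul']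
  unfold gp
  simp

omit hC hm in
theorem nid (z w : ℂ) : ‖1 - (starRingEnd ℂ) z * w‖ ^ 2 =
    ‖z - w‖ ^ 2 + (1 - ‖z‖ ^ 2) * (1 - ‖w‖ ^ 2) := by
  simp only [Complex.sq_norm, Complex.normSq_apply, Complex.sub_re, Complex.sub_im,
    Complex.mul_re, Complex.mul_im, Complex.conj_re, Complex.conj_im, Complex.one_re,
    Complex.one_im]
  ring

omit hC hm in
include hS in
theorem gm_pt (hm1 : ‖m‖ ≤ 1) (x : l2 (Fin d → ℤ)) :
    (inner ℂ x (opr (cR (gm m)) x) : ℂ).re = ‖x‖ ^ 2 - ‖opr m x‖ ^ 2 ∧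
      0 ≤ (inner ℂ x (opr (cR (gm m)) x) : ℂ).re := by
  have h1 : (inner ℂ x (opr (cR (gm m)) x) : ℂ).re = ‖x‖ ^ 2 - ‖opr m x‖ ^ 2 := by
    rw [cR_gm, opr_sub, opr_one, sub_apply, inner_sub_right, ← (hS d).1, inn_self]
    have e1 : (inner ℂ x ((1 : l2 (Fin d → ℤ) →L[ℂ] l2 (Fin d → ℤ)) x) : ℂ) =
        ((‖x‖ ^ 2 : ℝ) : ℂ) := inn_self x
    rw [e1, Complex.sub_re, Complex.ofReal_re, Complex.ofReal_re]
  refine ⟨h1, ?_⟩
  rw [h1]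
  have h2 : ‖opr m x‖ ≤ ‖x‖ := (opr_le m x).trans (by
    calc ‖m‖ * ‖x‖ ≤ 1 * ‖x‖ := mul_le_mul_of_nonneg_right hm1 (norm_nonneg _)
      _ = ‖x‖ := one_mul _)
  nlinarith [norm_nonneg (opr m x)]

/-- the quadratic expression of the Ward identity -/
def qA (m : C(UnitAddTorus (Fin d), ℂ)) (u : l2 (Fin d → ℤ)) (v : (Fin d → ℤ) → ℝ) : ℝ :=
  (inner ℂ (chp ν m u v) (opr (cR (gm m)) (chp ν m u v)) : ℂ).re

theorem qA_bm : BM (qA ν m u) :=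
  ((chp_bm ν hC m hm u).inner ((chp_bm ν hC m hm u).clm _)).re

include hS in
theorem ward_re : (inner ℂ u (opr (cR (gp ν m)) u) : ℂ).re =
    ∫ v, qA ν m u v ∂(Pn ν (Fin d → ℤ)) := by
  have h := wardid ν hS hC m m hm hm u u
  rw [← cR_gp, ← cR_gm] at h
  rw [h]
  have hb : BM (fun v => (inner ℂ (chp ν m u v) (opr (cR (gm m)) (chp ν m u v)) : ℂ)) :=
    (chp_bm ν hC m hm u).inner ((chp_bm ν hC m hm u).clm _)
  exact (Complex.reCLM.integral_comp_comm hb.int).symm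

include hS in
theorem ward_low (q : ℝ) (hq0 : 0 ≤ q) (hq : ‖m‖ ≤ q) (hq1 : q < 1) :
    (1 - q ^ 2) * vr ν / 4 * ‖opr (aa ν m) u‖ ^ 2 ≤ (inner ℂ u (opr (cR (gp ν m)) u) : ℂ).re := by
  rw [ward_re ν hS hC m hm u]
  have h1 := varbound ν hC m hm u
  have b2 : BM (chp ν m u) := chp_bm ν hC m hm u
  have i2 : Integrable (fun v => ‖chp ν m u v‖ ^ 2) (Pn ν (Fin d → ℤ)) := by
    obtain ⟨K, hK⟩ := b2.nsq.bd
    exact Integrable.of_bound b2.nsq.sm.aestronglyMeasurable K (Filter.Eventually.of_forall hK)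
  have i1 : Integrable (qA ν m u) (Pn ν (Fin d → ℤ)) := by
    obtain ⟨K, hK⟩ := (qA_bm ν hC m hm u).bd
    exact Integrable.of_bound (qA_bm ν hC m hm u).sm.aestronglyMeasurable K
      (Filter.Eventually.of_forall hK)
  have h2 : (1 - q ^ 2) * ∫ v, ‖chp ν m u v‖ ^ 2 ∂(Pn ν (Fin d → ℤ)) ≤
      ∫ v, qA ν m u v ∂(Pn ν (Fin d → ℤ)) := by
    rw [← integral_const_mul]
    refine integral_mono (i2.const_mul _) i1 fun v => ?_
    dsimp only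
    unfold qA
    rw [(gm_pt hS m hm.le _).1]
    have h3 : ‖opr m (chp ν m u v)‖ ≤ q * ‖chp ν m u v‖ :=
      (opr_le m _).trans (mul_le_mul_of_nonneg_right hq (norm_nonneg _))
    have h4 : ‖opr m (chp ν m u v)‖ ^ 2 ≤ (q * ‖chp ν m u v‖) ^ 2 :=
      pow_le_pow_left₀ (norm_nonneg _) h3 2
    rw [mul_pow] at h4
    linarith
  have h5 : 0 ≤ 1 - q ^ 2 := by nlinarith
  have h6 := mul_le_mul_of_nonneg_left h1 h5
  linarith

include hS in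
theorem low_pt (q : ℝ) (hq0 : 0 ≤ q) (hq : ‖m‖ ≤ q) (hq1 : q < 1) (k : UnitAddTorus (Fin d)) :
    ‖csym ν m k‖ ^ 2 ≤ ‖aa ν m k‖ ^ 2 * (1 - (1 - q ^ 2) * vr ν / 4) := by
  obtain ⟨t, ht⟩ : ∃ t : ℝ, t = (1 - q ^ 2) * vr ν / 4 := ⟨_, rfl⟩
  have h := ((hS d).2.2.1 (cR (gp ν m) - (t : ℂ) • (star (aa ν m) * aa ν m))).1 (by
    intro u
    rw [opr_sub, opr_smul, sub_apply, inner_sub_right, Complex.sub_re]
    have e1 : (inner ℂ u (((t : ℂ) • opr (star (aa ν m) * aa ν m)) u) : ℂ).re =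
        t * ‖opr (aa ν m) u‖ ^ 2 := by
      have e2 : ((t : ℂ) • opr (star (aa ν m) * aa ν m)) u =
        (t : ℂ) • (opr (star (aa ν m) * aa ν m) u) := rfl
      rw [e2, inner_smul_right, ← (hS d).1, inn_self, ← Complex.ofReal_mul, Complex.ofReal_re]
    rw [e1, sub_nonneg, ht]
    exact ward_low ν hS hC m hm u q hq0 hq hq1) k
  have e3 : ((cR (gp ν m) - (t : ℂ) • (star (aa ν m) * aa ν m) :
      C(UnitAddTorus (Fin d), ℂ)) k) = cR (gp ν m) k -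
        (t : ℂ) * ((starRingEnd ℂ) (aa ν m k) * aa ν m k) := rfl
  rw [e3, cR_apply, Complex.conj_mul', ← Complex.ofReal_pow, ← Complex.ofReal_mul,
    ← Complex.ofReal_sub, Complex.ofReal_re] at h
  have e4 : gp ν m k = ‖aa ν m k‖ ^ 2 - ‖csym ν m k‖ ^ 2 := rfl
  rw [e4] at h
  rw [← ht]
  linarith

omit hm in
include hS in
theorem two_pt (m₁ m₂ : C(UnitAddTorus (Fin d), ℂ)) (h₁ : ‖m₁‖ < 1) (h₂ : ‖m₂‖ < 1) (T : ℝ)
    (hT : 0 ≤ T)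
    (hd : ∀ k, ‖m₁ k - m₂ k‖ ^ 2 ≤ T * ((1 - ‖m₁ k‖ ^ 2) * (1 - ‖m₂ k‖ ^ 2)))
    (k : UnitAddTorus (Fin d)) :
    ‖(starRingEnd ℂ) (aa ν m₁ k) * aa ν m₂ k - (starRingEnd ℂ) (csym ν m₁ k) * csym ν m₂ k‖ ^ 2 ≤
      (1 + T) * (‖aa ν m₁ k‖ ^ 2 - ‖csym ν m₁ k‖ ^ 2) *
        (‖aa ν m₂ k‖ ^ 2 - ‖csym ν m₂ k‖ ^ 2) := by
  have hn : ∀ (m : C(UnitAddTorus (Fin d), ℂ)), ‖m‖ < 1 → ∀ k, 0 ≤ gm m k := by
    intro m hm k
    have h1 : ‖m k‖ ≤ ‖m‖ := m.norm_coe_le_norm k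
    have h2 : gm m k = 1 - ‖m k‖ ^ 2 := rfl
    rw [h2]
    nlinarith [norm_nonneg (m k)]
  have hp : ∀ (m : C(UnitAddTorus (Fin d), ℂ)), ‖m‖ < 1 → ∀ k, 0 ≤ gp ν m k := by
    intro m hm k
    have h1 := low_pt ν hS hC m hm ‖m‖ (norm_nonneg _) le_rfl hm k
    have h2 : gp ν m k = ‖aa ν m k‖ ^ 2 - ‖csym ν m k‖ ^ 2 := rfl
    rw [h2]
    have h3 : 0 ≤ vr ν := by
      unfold vr
      have h4 : ‖∫ x, cay x ∂ν‖ ≤ 1 := by
        have h5 := norm_integral_le_of_norm_le_const (μ := ν) (f := cay) (C := 1)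
          (Filter.Eventually.of_forall fun x => (cay_norm x).le)
        simpa using h5
      nlinarith [norm_nonneg (∫ x, cay x ∂ν)]
    have h6 : 0 ≤ (1 - ‖m‖ ^ 2) * vr ν / 4 := by
      have : 0 ≤ 1 - ‖m‖ ^ 2 := by nlinarith [norm_nonneg m]
      positivity
    nlinarith [sq_nonneg ‖aa ν m k‖]
  have hpath := ((hS d).2.2.2.1 (1 - star m₁ * m₂) (gm m₁) (gm m₂) (1 + T) (by linarith)
    (hn m₁ h₁) (hn m₂ h₂)).2 (by
      intro k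
      have e1 : ((1 - star m₁ * m₂ : C(UnitAddTorus (Fin d), ℂ)) k) =
        1 - (starRingEnd ℂ) (m₁ k) * m₂ k := rfl
      have e2 : gm m₁ k = 1 - ‖m₁ k‖ ^ 2 := rfl
      have e3 : gm m₂ k = 1 - ‖m₂ k‖ ^ 2 := rfl
      rw [e1, e2, e3, nid]
      have := hd k
      linarith)
  refine ((hS d).2.2.2.1 (star (aa ν m₁) * aa ν m₂ - star (csym ν m₁) * csym ν m₂)
    (gp ν m₁) (gp ν m₂) (1 + T) (by linarith) (hp m₁ h₁) (hp m₂ h₂)).1 ?_ k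
  intro u₁ u₂
  rw [wardid ν hS hC m₁ m₂ h₁ h₂ u₁ u₂, ward_re ν hS hC m₁ h₁ u₁, ward_re ν hS hC m₂ h₂ u₂]
  refine cs ((chp_bm ν hC m₁ h₁ u₁).inner ((chp_bm ν hC m₂ h₂ u₂).clm _))
    (qA_bm ν hC m₁ h₁ u₁) (qA_bm ν hC m₂ h₂ u₂) (fun v => (gm_pt hS m₁ h₁.le _).2)
    (fun v => (gm_pt hS m₂ h₂.le _).2) (1 + T) (by linarith) fun v => ?_
  exact hpath (chp ν m₁ u₁ v) (chp ν m₂ u₂ v)

end ward

theorem vr_nonneg (ν : Measure ℝ) [IsProbabilityMeasure ν] : 0 ≤ vr ν := by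
  unfold vr
  have h4 : ‖∫ x, cay x ∂ν‖ ≤ 1 := by
    have h5 := norm_integral_le_of_norm_le_const (μ := ν) (f := cay) (C := 1)
      (Filter.Eventually.of_forall fun x => (cay_norm x).le)
    simpa using h5
  nlinarith [norm_nonneg (∫ x, cay x ∂ν)]

theorem main (hS : S_SYMB) (hC : S_CSYM) : S_PSI := by
  intro ν hν d q m₁ m₂ hq0 hq1 hm₁ hm₂
  have hv := vr_nonneg ν
  have hq2 : 0 ≤ 1 - q ^ 2 := by nlinarith
  have hq3 : 0 < 1 - q ^ 2 := by nlinarith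
  -- one symbol
  have one : ∀ m : C(UnitAddTorus (Fin d), ℂ), ‖m‖ ≤ q → ∀ k, aa ν m k ≠ 0 ∧
      psi ν m k = csym ν m k / aa ν m k ∧
      ‖csym ν m k‖ ^ 2 ≤ ‖aa ν m k‖ ^ 2 * (1 - (1 - q ^ 2) * vr ν / 4) := by
    intro m hm
    have hlow := fun k => low_pt ν hS hC m (hm.trans_lt hq1) q hq0 hm hq1 k
    have hne : ∀ k, aa ν m k ≠ 0 := by
      intro k h0
      have h1 := hlow k
      rw [h0, norm_zero] at h1
      have h2 : ‖csym ν m k‖ = 0 := by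
        have : ‖csym ν m k‖ ^ 2 ≤ 0 := by linarith
        nlinarith [norm_nonneg (csym ν m k)]
      have h3 : csym ν m k = 0 := norm_eq_zero.1 h2
      have h4 : aa ν m k = 1 + m k * csym ν m k := rfl
      rw [h3, mul_zero, add_zero, h0] at h4
      exact zero_ne_one h4
    intro k
    refine ⟨hne k, ?_, hlow k⟩
    unfold psi
    have hc : Continuous fun k => csym ν m k / (1 + m k * csym ν m k) :=
      (csym ν m).continuous.div (by fun_prop) fun k => hne k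
    exact toC_apply hc k
  have two : ∀ T : ℝ, 0 ≤ T →
      (∀ k, ‖m₁ k - m₂ k‖ ^ 2 ≤ T * ((1 - ‖m₁ k‖ ^ 2) * (1 - ‖m₂ k‖ ^ 2))) →
      ∀ k, ‖psi ν m₁ k - psi ν m₂ k‖ ^ 2
        ≤ T * ((1 - ‖psi ν m₁ k‖ ^ 2) * (1 - ‖psi ν m₂ k‖ ^ 2)) := by
    intro T hT hd k
    have h := two_pt ν hS hC m₁ m₂ (hm₁.trans_lt hq1) (hm₂.trans_lt hq1) T hT hd k
    obtain ⟨a1, b1, -⟩ := one m₁ hm₁ k
    obtain ⟨a2, b2, -⟩ := one m₂ hm₂ k
    obtain ⟨s₁, hs₁⟩ : ∃ s : ℂ, s = psi ν m₁ k := ⟨_, rfl⟩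
    obtain ⟨s₂, hs₂⟩ : ∃ s : ℂ, s = psi ν m₂ k := ⟨_, rfl⟩
    rw [← hs₁] at b1 ⊢
    rw [← hs₂] at b2 ⊢
    have c1 : csym ν m₁ k = s₁ * aa ν m₁ k := by
      rw [b1]
      field_simp
    have c2 : csym ν m₂ k = s₂ * aa ν m₂ k := by
      rw [b2]
      field_simp
    rw [c1, c2] at h
    obtain ⟨x, hx⟩ : ∃ x : ℂ, x = aa ν m₁ k := ⟨_, rfl⟩
    obtain ⟨y, hy⟩ : ∃ y : ℂ, y = aa ν m₂ k := ⟨_, rfl⟩
    rw [← hx, ← hy] at h
    rw [← hx] at a1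
    rw [← hy] at a2
    have e1 : (starRingEnd ℂ) x * y - (starRingEnd ℂ) (s₁ * x) * (s₂ * y) =
        (starRingEnd ℂ) x * y * (1 - (starRingEnd ℂ) s₁ * s₂) := by
      rw [map_mul]
      ring
    rw [e1, norm_mul, norm_mul, RCLike.norm_conj, mul_pow, nid, norm_mul, norm_mul, mul_pow,
      mul_pow, mul_pow] at h
    have hx0 : 0 < ‖x‖ ^ 2 := by
      have := norm_pos_iff.2 a1
      positivity
    have hy0 : 0 < ‖y‖ ^ 2 := by
      have := norm_pos_iff.2 a2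
      positivity
    have h2 : (‖x‖ ^ 2 * ‖y‖ ^ 2) * (‖s₁ - s₂‖ ^ 2 + (1 - ‖s₁‖ ^ 2) * (1 - ‖s₂‖ ^ 2)) ≤
        (‖x‖ ^ 2 * ‖y‖ ^ 2) * ((1 + T) * ((1 - ‖s₁‖ ^ 2) * (1 - ‖s₂‖ ^ 2))) := by
      linarith
    have h3 := le_of_mul_le_mul_left h2 (mul_pos hx0 hy0)
    linarith
  have hle1 : ∀ m : C(UnitAddTorus (Fin d), ℂ), ‖m‖ ≤ q → ∀ k,
      ‖psi ν m k‖ ^ 2 ≤ 1 - (1 - q ^ 2) * vr ν / 4 := by
    intro m hm k
    obtain ⟨a1, b1, c1⟩ := one m hm k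
    rw [b1, norm_div, div_pow, div_le_iff₀ (by
      have := norm_pos_iff.2 a1
      positivity)]
    linarith
  have hle2 : ∀ m : C(UnitAddTorus (Fin d), ℂ), ‖m‖ ≤ q → ∀ k, ‖psi ν m k‖ ≤ 1 := by
    intro m hm k
    have h1 := hle1 m hm k
    have h2 : 0 ≤ (1 - q ^ 2) * vr ν / 4 := by positivity
    nlinarith [norm_nonneg (psi ν m k)]
  refine ⟨fun k => ?_, two, ?_⟩
  · obtain ⟨a1, b1, c1⟩ := one m₁ hm₁ k
    have e0 : aa ν m₁ k = 1 + m₁ k * csym ν m₁ k := rfl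
    rw [e0] at a1 b1
    have e1 : 1 - m₁ k * psi ν m₁ k = 1 / (1 + m₁ k * csym ν m₁ k) := by
      rw [b1]
      field_simp
      ring
    have e2 : 1 - m₁ k * psi ν m₁ k ≠ 0 := by
      rw [e1]
      exact one_div_ne_zero a1
    refine ⟨a1, b1, hle2 m₁ hm₁ k, e2, ?_, hle1 m₁ hm₁ k⟩
    rw [e1, b1, div_div_div_cancel_right₀ a1, div_one]
  · obtain ⟨r, hr⟩ : ∃ r : ℝ, r = ‖m₁ - m₂‖ / (1 - q ^ 2) := ⟨_, rfl⟩
    have hr0 : 0 ≤ r := by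
      rw [hr]
      positivity
    rw [← hr]
    refine (ContinuousMap.norm_le _ hr0).2 fun k => ?_
    have hmk : ∀ m : C(UnitAddTorus (Fin d), ℂ), ‖m‖ ≤ q → 1 - q ^ 2 ≤ 1 - ‖m k‖ ^ 2 := by
      intro m hm
      have h1 : ‖m k‖ ≤ q := (m.norm_coe_le_norm k).trans hm
      nlinarith [norm_nonneg (m k)]
    have h := two (r ^ 2) (sq_nonneg _) (by
      intro k
      have hmk : ∀ m : C(UnitAddTorus (Fin d), ℂ), ‖m‖ ≤ q → 1 - q ^ 2 ≤ 1 - ‖m k‖ ^ 2 := by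
        intro m hm
        have h1 : ‖m k‖ ≤ q := (m.norm_coe_le_norm k).trans hm
        nlinarith [norm_nonneg (m k)]
      have h1 : ‖m₁ k - m₂ k‖ ≤ ‖m₁ - m₂‖ := (m₁ - m₂).norm_coe_le_norm k
      have h2 : ‖m₁ k - m₂ k‖ ^ 2 ≤ ‖m₁ - m₂‖ ^ 2 := pow_le_pow_left₀ (norm_nonneg _) h1 2
      have h3 : ‖m₁ - m₂‖ = r * (1 - q ^ 2) := by
        rw [hr]
        field_simp
      rw [h3, mul_pow] at h2
      refine h2.trans (mul_le_mul_of_nonneg_left ?_ (sq_nonneg _))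
      rw [sq (1 - q ^ 2)]
      exact mul_le_mul (hmk m₁ hm₁) (hmk m₂ hm₂) hq2 (hq2.trans (hmk m₁ hm₁))) k
    have h4 : (psi ν m₁ - psi ν m₂) k = psi ν m₁ k - psi ν m₂ k := rfl
    rw [h4]
    have h5 : (1 - ‖psi ν m₁ k‖ ^ 2) * (1 - ‖psi ν m₂ k‖ ^ 2) ≤ 1 := by
      have g1 := hle2 m₁ hm₁ k
      have g2 := hle2 m₂ hm₂ k
      have g3 := norm_nonneg (psi ν m₁ k)
      have g4 := norm_nonneg (psi ν m₂ k)
      have g5 : 0 ≤ 1 - ‖psi ν m₁ k‖ ^ 2 := by nlinarith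
      have g6 : 0 ≤ 1 - ‖psi ν m₂ k‖ ^ 2 := by nlinarith
      nlinarith [sq_nonneg ‖psi ν m₁ k‖, sq_nonneg ‖psi ν m₂ k‖]
    have h6 : ‖psi ν m₁ k - psi ν m₂ k‖ ^ 2 ≤ r ^ 2 := by
      nlinarith [sq_nonneg r]
    exact (pow_le_pow_iff_left₀ (norm_nonneg _) hr0 two_ne_zero).1 h6

end

end Pool.Agent.W19.WAPsi
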